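import Mathlib
import Pool.Agent.W262.TW.Full

/-!
# Rational points on almost all quadratic twists of a curve with rational branch points

Let `C d` be the curve `d y² = ∏ k, (α k x + β k w)`, a product of `2 g + 2 ≥ 6` pairwise
non-proportional linear forms over `ℤ`.  Under a condition on the determinants of the forms, for
all squarefree `d`, `|d| ≤ X`, with at most `C X (log X)^(-1/5)` exceptions all rational points of
`C d` with `y ≠ 0` lie above a fixed (by Faltings' theorem finite) subset of `ℙ¹(ℚ)`.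
-/

namespace Pool.Agent.Results.MP_10e784_ag.RationalBranchPoints

open Finset

section

variable {K : Type} [Fintype K] [DecidableEq K]

/-- the determinants of the linear forms -/
def det (α β : K → ℤ) (i k : K) : ℤ := α i * β k - α k * β i

/-- `(x : w)` is special if for some `i` the numbers `det i k * (α k x + β k w)`, `k ≠ i`, are all
in the same square class -/
def Special (α β : K → ℤ) (x w : ℚ) : Prop :=
  ∃ i, ∀ k l, k ≠ i → l ≠ i →
    IsSquare ((det α β i k * (α k * x + β k * w)) * (det α β i l * (α l * x + β l * w)))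

/-- the curve `d y² = ∏ k, (α k x + β k w)` has a rational point with `y ≠ 0` that is not special -/
def HasOtherPoint (α β : K → ℤ) (d : ℤ) : Prop :=
  ∃ x w y : ℚ, (x ≠ 0 ∨ w ≠ 0) ∧ y ≠ 0 ∧ d * y ^ 2 = ∏ k, (α k * x + β k * w) ∧
    ¬ Special α β x w

lemma exists_coprime (x w : ℚ) (h : x ≠ 0 ∨ w ≠ 0) :
    ∃ (a b : ℤ) (t : ℚ), IsCoprime a b ∧ t ≠ 0 ∧ x = t * a ∧ w = t * b := by
  set n : ℤ := x.num * w.den with hn
  set m : ℤ := w.num * x.den with hm
  have hxd : (x.den : ℚ) ≠ 0 := by exact_mod_cast x.den_ne_zero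
  have hwd : (w.den : ℚ) ≠ 0 := by exact_mod_cast w.den_ne_zero
  have ex : x = (1 / (x.den * w.den)) * n := by
    rw [hn]
    push_cast
    nth_rewrite 1 [← Rat.num_div_den x]
    field_simp
  have ew : w = (1 / (x.den * w.den)) * m := by
    rw [hm]
    push_cast
    nth_rewrite 1 [← Rat.num_div_den w]
    field_simp
  have hg : 0 < Int.gcd n m := by
    rw [Int.gcd_pos_iff]
    rcases h with h | h
    · left
      rintro h0
      apply h
      rw [ex, h0]
      simp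
    · right
      rintro h0
      apply h
      rw [ew, h0]
      simp
  obtain ⟨a, ha⟩ := Int.gcd_dvd_left n m
  obtain ⟨b, hb⟩ := Int.gcd_dvd_right n m
  have hgq : ((Int.gcd n m : ℕ) : ℚ) ≠ 0 := by exact_mod_cast hg.ne'
  refine ⟨a, b, (1 / (x.den * w.den)) * (Int.gcd n m : ℕ), ?_, ?_, ?_, ?_⟩
  · rw [Int.isCoprime_iff_gcd_eq_one]
    have h1 : Int.gcd ((Int.gcd n m : ℤ) * a) ((Int.gcd n m : ℤ) * b) = Int.gcd n m * Int.gcd a b := by
      rw [Int.gcd_mul_left]
      simp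
    rw [← ha, ← hb] at h1
    have h2 : Int.gcd n m * 1 = Int.gcd n m * Int.gcd a b := by omega
    exact (Nat.eq_of_mul_eq_mul_left hg h2).symm
  · positivity
  · have ha' : (n : ℚ) = (Int.gcd n m : ℕ) * a := by exact_mod_cast ha
    linear_combination ex + (1 / (x.den * w.den) : ℚ) * ha'
  · have hb' : (m : ℚ) = (Int.gcd n m : ℕ) * b := by exact_mod_cast hb
    linear_combination ew + (1 / (x.den * w.den) : ℚ) * hb'

lemma int_of_sq {d : ℤ} (hd : Squarefree d) {y : ℚ} {n : ℤ} (h : (d : ℚ) * y ^ 2 = n) :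
    ∃ z : ℤ, y = z := by
  have hy : (y.den : ℚ) ≠ 0 := by exact_mod_cast y.den_ne_zero
  have h1 : (d : ℚ) * y.num ^ 2 = n * y.den ^ 2 := by
    have e := Rat.num_div_den y
    rw [← e] at h
    field_simp at h
    linarith
  have h2 : d * y.num ^ 2 = n * (y.den : ℤ) ^ 2 := by exact_mod_cast h1
  have hcop : IsCoprime ((y.den : ℤ) ^ 2) (y.num ^ 2) := by
    apply IsCoprime.pow
    rw [Int.isCoprime_iff_gcd_eq_one, Int.gcd_comm]
    exact y.reduced
  have h3 : ((y.den : ℤ) * (y.den : ℤ)) ∣ d := by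
    rw [← pow_two]
    exact hcop.dvd_of_dvd_mul_right (Dvd.intro_left n h2.symm)
  have h4 := hd _ h3
  have h5 : y.den = 1 := by
    rcases Int.isUnit_iff.1 h4 with h | h
    · exact_mod_cast h
    · omega
  exact ⟨y.num, by rw [← Rat.num_div_den y]; simp [h5]⟩

lemma bad_of {α β : K → ℤ} {d : ℤ} (hd : Squarefree d) (hK : Even (Fintype.card K))
    (h : HasOtherPoint α β d) : W262.TW.BadS α β d := by
  obtain ⟨x, w, y, hxw, hy, he, hs⟩ := h
  obtain ⟨a, b, t, hab, ht, hx, hw⟩ := exists_coprime x w hxw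
  obtain ⟨m, hm⟩ := hK
  have e1 : ∀ k, (α k : ℚ) * x + β k * w = t * ((α k * a + β k * b : ℤ) : ℚ) := by
    intro k
    rw [hx, hw]
    push_cast
    ring
  have e2 : ∏ k, ((α k : ℚ) * x + β k * w) =
      (t ^ m) ^ 2 * ((∏ k, (α k * a + β k * b) : ℤ) : ℚ) := by
    rw [prod_congr rfl fun k _ => e1 k, prod_mul_distrib, prod_const, card_univ, hm]
    push_cast
    ring
  have htm : t ^ m ≠ 0 := pow_ne_zero _ ht
  have e3 : (d : ℚ) * (y / t ^ m) ^ 2 = ((∏ k, (α k * a + β k * b) : ℤ) : ℚ) := by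
    rw [div_pow]
    field_simp
    rw [he, e2]
  obtain ⟨z, hz⟩ := int_of_sq hd e3
  refine ⟨a, b, z, hab, ?_, ?_, ?_⟩
  · rintro rfl
    rw [Int.cast_zero, div_eq_zero_iff] at hz
    exact hz.elim hy htm
  · rw [hz] at e3
    exact_mod_cast e3
  · intro i
    by_contra hcon
    push Not at hcon
    apply hs
    refine ⟨i, fun k l hk hl => ?_⟩
    obtain ⟨r, hr⟩ := hcon k l hk hl
    rw [e1, e1]
    refine ⟨t * r, ?_⟩
    have hr' : (((α k * a + β k * b) * (α l * a + β l * b) *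
      (W262.TW.cc α β i k * W262.TW.cc α β i l) : ℤ) : ℚ) = ((r * r : ℤ) : ℚ) := by
      exact_mod_cast hr
    unfold W262.TW.cc at hr'
    unfold det
    push_cast at hr' ⊢
    linear_combination t ^ 2 * hr'

end

theorem result (K : Type) [Fintype K] [DecidableEq K] (α β : K → ℤ)
    (hK : Even (Fintype.card K)) (hK6 : 6 ≤ Fintype.card K)
    (h1 : ∀ i k, i ≠ k → det α β i k ≠ 0)
    (h2 : ∀ i k, i ≠ k → ∃ l m, l ≠ i ∧ l ≠ k ∧ m ≠ i ∧ m ≠ k ∧
      ¬ IsSquare (det α β i l * det α β i m * (det α β k l * det α β k m))) :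
    ∃ C : ℝ, ∀ X : ℕ, 2 ≤ X →
      ({d : ℤ | d.natAbs ≤ X ∧ Squarefree d ∧ HasOtherPoint α β d}.ncard : ℝ) ≤
        C * X * (Real.log X) ^ (-(1 / 5 : ℝ)) := by
  obtain ⟨C, hC⟩ := W262.TW.fins_all K α β (by omega) h1 h2
  refine ⟨max C (5 / 2 * (Real.log 2) ^ (1 / 5 : ℝ)), fun X hX => ?_⟩
  have hl2 : 0 < Real.log 2 := Real.log_pos (by norm_num)
  rcases Nat.lt_or_ge 2 X with h | h
  · have h0 : {d : ℤ | d.natAbs ≤ X ∧ Squarefree d ∧ HasOtherPoint α β d}.ncard ≤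
        {d : ℤ | d.natAbs ≤ X ∧ Squarefree d ∧ W262.TW.BadS α β d}.ncard := by
      apply Set.ncard_le_ncard
      · rintro d ⟨hd1, hd2, hd3⟩
        exact ⟨hd1, hd2, bad_of hd2 hK hd3⟩
      · refine (Finset.finite_toSet (Finset.Icc (-(X : ℤ)) X)).subset ?_
        rintro d ⟨hd1, -⟩
        rw [Finset.mem_coe, Finset.mem_Icc]
        omega
    have h0' : ({d : ℤ | d.natAbs ≤ X ∧ Squarefree d ∧ HasOtherPoint α β d}.ncard : ℝ) ≤
        {d : ℤ | d.natAbs ≤ X ∧ Squarefree d ∧ W262.TW.BadS α β d}.ncard := by exact_mod_cast h0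
    refine (h0'.trans (hC X h)).trans ?_
    have h1 : (0 : ℝ) ≤ Real.log X := Real.log_natCast_nonneg X
    have h2 : (0 : ℝ) ≤ (Real.log X) ^ (-(1 / 5 : ℝ)) := Real.rpow_nonneg h1 _
    exact mul_le_mul_of_nonneg_right
      (mul_le_mul_of_nonneg_right (le_max_left _ _) (Nat.cast_nonneg _)) h2
  · obtain rfl : X = 2 := le_antisymm h hX
    have h3 : {d : ℤ | d.natAbs ≤ 2 ∧ Squarefree d ∧ HasOtherPoint α β d}.ncard ≤ 5 := by
      have h4 : {d : ℤ | d.natAbs ≤ 2 ∧ Squarefree d ∧ HasOtherPoint α β d} ⊆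
          ((Finset.Icc (-2 : ℤ) 2 : Finset ℤ) : Set ℤ) := by
        intro d hd
        have h5 : d.natAbs ≤ 2 := hd.1
        rw [Finset.mem_coe, Finset.mem_Icc]
        omega
      refine (Set.ncard_le_ncard h4 (Finset.finite_toSet _)).trans ?_
      rw [Set.ncard_coe_finset]
      rfl
    have h6 : ({d : ℤ | d.natAbs ≤ 2 ∧ Squarefree d ∧ HasOtherPoint α β d}.ncard : ℝ) ≤ 5 := by
      exact_mod_cast h3
    refine h6.trans ?_
    have h7 : (0 : ℝ) ≤ ((2 : ℕ) : ℝ) * (Real.log ((2 : ℕ) : ℝ)) ^ (-(1 / 5 : ℝ)) := by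
      positivity
    have h8 : (5 : ℝ) = (5 / 2 * (Real.log 2) ^ (1 / 5 : ℝ)) * (((2 : ℕ) : ℝ) *
        (Real.log ((2 : ℕ) : ℝ)) ^ (-(1 / 5 : ℝ))) := by
      have h9 : (Real.log 2) ^ (1 / 5 : ℝ) * (Real.log 2) ^ (-(1 / 5 : ℝ)) = 1 := by
        rw [← Real.rpow_add hl2]
        simp
      push_cast
      linear_combination (-5 : ℝ) * h9
    calc (5 : ℝ) = (5 / 2 * (Real.log 2) ^ (1 / 5 : ℝ)) * (((2 : ℕ) : ℝ) *
          (Real.log ((2 : ℕ) : ℝ)) ^ (-(1 / 5 : ℝ))) := h8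
      _ ≤ (max C (5 / 2 * (Real.log 2) ^ (1 / 5 : ℝ))) * (((2 : ℕ) : ℝ) *
          (Real.log ((2 : ℕ) : ℝ)) ^ (-(1 / 5 : ℝ))) :=
        mul_le_mul_of_nonneg_right (le_max_right _ _) h7
      _ = _ := by rw [mul_assoc]

end Pool.Agent.Results.MP_10e784_ag.RationalBranchPoints
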